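import Pool.Agent.Q250.NR.Hardy

/-!
# MP_dfd7ce_an : part (a) of Q1 fails

`H²(𝔻²)` is modelled by the square-summable coefficient families `a : ℕ × ℕ → ℂ` (`HH`), and
`fn a z w = ∑ a (k,l) z^k w^l` is the corresponding holomorphic function on the bidisk.
-/

namespace Pool.Agent.Results.MP_dfd7ce_an.NotOpen

open Pool.Agent.Q250.NR Filter Topology MeasureTheory
open scoped InnerProductSpace ComplexConjugate

/-- value of a polynomial in two variables -/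
noncomputable def pev (p : MvPolynomial (Fin 2) ℂ) (z w : ℂ) : ℂ := MvPolynomial.eval ![z, w] p

/-- the point `r e^{i t}` -/
noncomputable def ray (t r : ℝ) : ℂ := r * Complex.exp (t * Complex.I)

/-- `θ` is on `𝔻²` a quotient of two polynomials, with denominator zero-free on `𝔻²`. -/
def IsRat (θ : ℂ → ℂ → ℂ) : Prop :=
  ∃ p q : MvPolynomial (Fin 2) ℂ, ∀ z w : ℂ, ‖z‖ < 1 → ‖w‖ < 1 →
    pev p z w ≠ 0 ∧ θ z w = pev q z w / pev p z w

/-- `θ` is a rational inner function: it is rational and holomorphic on `𝔻²`, and its radial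
boundary values have modulus one almost everywhere on `𝕋²`. -/
def IsRIF (θ : ℂ → ℂ → ℂ) : Prop :=
  IsRat θ ∧
  ∀ᵐ t : ℝ × ℝ, Tendsto (fun r : ℝ => ‖θ (ray t.1 r) (ray t.2 r)‖) (𝓝[<] 1) (𝓝 1)

/-- finite Blaschke products (as functions on the disk) -/
def IsBlaschke (B : ℂ → ℂ) : Prop :=
  ∃ (lam : ℂ) (n : ℕ) (a : Fin n → ℂ), ‖lam‖ = 1 ∧ (∀ j, ‖a j‖ < 1) ∧
    ∀ z : ℂ, ‖z‖ < 1 → B z = lam * ∏ j, (z - a j) / (1 - conj (a j) * z)

/-- `θ(z₁,z₂) = B₁(z₁) B₂(z₂)` with finite Blaschke products. -/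
def Splits (θ : ℂ → ℂ → ℂ) : Prop :=
  ∃ B₁ B₂ : ℂ → ℂ, IsBlaschke B₁ ∧ IsBlaschke B₂ ∧
    ∀ z w : ℂ, ‖z‖ < 1 → ‖w‖ < 1 → θ z w = B₁ z * B₂ w

/-- `H²(𝔻²)`, as the Hilbert space of square-summable coefficient families
`a : ℕ × ℕ → ℂ`. -/
def HH : Type := lp (fun _ : ℕ × ℕ => ℂ) 2

noncomputable instance instNACG : NormedAddCommGroup HH :=
  (lp.normedAddCommGroup : NormedAddCommGroup (lp (fun _ : ℕ × ℕ => ℂ) 2))

noncomputable instance instIPS : InnerProductSpace ℂ HH :=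
  (lp.instInnerProductSpace : InnerProductSpace ℂ (lp (fun _ : ℕ × ℕ => ℂ) 2))

/-- the coefficient `a (k,l)` -/
def coeff (f : HH) (p : ℕ × ℕ) : ℂ := (show lp (fun _ : ℕ × ℕ => ℂ) 2 from f) p

/-- The holomorphic function `∑ a (k,l) z^k w^l` on the bidisk. -/
noncomputable def fn (f : HH) (z w : ℂ) : ℂ := ∑' p : ℕ × ℕ, coeff f p * (z ^ p.1 * w ^ p.2)

/-- `T` is multiplication by the function `m` (on the bidisk). -/
def IsMul (m : ℂ → ℂ → ℂ) (T : HH →L[ℂ] HH) : Prop :=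
  ∀ (f : HH) (z w : ℂ), ‖z‖ < 1 → ‖w‖ < 1 → fn (T f) z w = m z w * fn f z w

/-- `K_θ = H² ⊖ θ H²`. -/
noncomputable def Ktheta (θ : ℂ → ℂ → ℂ) : Submodule ℂ HH :=
  (Submodule.span ℂ {h : HH | ∃ g : HH, ∀ z w : ℂ, ‖z‖ < 1 → ‖w‖ < 1 →
    fn h z w = θ z w * fn g z w})ᗮ

section generic

variable {H : Type} [NormedAddCommGroup H] [InnerProductSpace ℂ H]

/-- `M` is invariant under `T` -/
def Inv (M : Submodule ℂ H) (T : H →L[ℂ] H) : Prop := ∀ x ∈ M, T x ∈ M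

/-- `M` and `N` are orthogonal -/
def Perp (M N : Submodule ℂ H) : Prop := ∀ x ∈ M, ∀ y ∈ N, ⟪x, y⟫_ℂ = 0

/-- `K = M₁ ⊕ M₂` is an orthogonal decomposition into closed subspaces with
`T₁ M₁ ⊆ M₁`, `T₂ M₂ ⊆ M₂`. -/
def IsAgler (K M₁ M₂ : Submodule ℂ H) (T₁ T₂ : H →L[ℂ] H) : Prop :=
  IsClosed (M₁ : Set H) ∧ IsClosed (M₂ : Set H) ∧ Perp M₁ M₂ ∧ M₁ ⊔ M₂ = K ∧
  Inv M₁ T₁ ∧ Inv M₂ T₂

/-- `y` is the orthogonal projection of `x` to `M`. -/
def IsProj (M : Submodule ℂ H) (x y : H) : Prop := y ∈ M ∧ ∀ v ∈ M, ⟪v, x - y⟫_ℂ = 0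

/-- The numerical range of the compression `P_M T|_M`: the values `⟨P_M T x, x⟩` with `x ∈ M` of
norm one. -/
def numRange (M : Submodule ℂ H) (T : H →L[ℂ] H) : Set ℂ :=
  {c | ∃ x ∈ M, ‖x‖ = 1 ∧ ∃ y, IsProj M (T x) y ∧ c = ⟪x, y⟫_ℂ}

end generic

/-- The statement Q1 (parts (a) and (b)); `T₁`, `T₂` are multiplication by `z₁`, `z₂`. -/
def Q1 : Prop :=
  ∀ (θ : ℂ → ℂ → ℂ) (T₁ T₂ : HH →L[ℂ] HH) (M₁ M₂ : Submodule ℂ HH),
    IsRIF θ → IsMul (fun z _ => z) T₁ → IsMul (fun _ w => w) T₂ →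
    IsAgler (Ktheta θ) M₁ M₂ T₁ T₂ →
    (¬ Splits θ → IsOpen (numRange M₂ T₁) ∧ IsOpen (numRange M₁ T₂)) ∧
    (Splits θ → IsClosed (numRange M₂ T₁) ∧ IsClosed (numRange M₁ T₂))

/-- The counterexample. -/
noncomputable def θ₀ (z w : ℂ) : ℂ :=
  (5 * z ^ 2 * w + 2 * z - 2) / (5 + 2 * z * w - 2 * z ^ 2 * w)

theorem den_ne {z w : ℂ} (hz : ‖z‖ ≤ 1) (hw : ‖w‖ ≤ 1) : 5 + 2 * z * w - 2 * z ^ 2 * w ≠ 0 := by
  intro h
  have h1 : (5 : ℂ) = 2 * z ^ 2 * w - 2 * z * w := by linear_combination h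
  have h2 : ‖(5 : ℂ)‖ ≤ 2 * ‖z‖ ^ 2 * ‖w‖ + 2 * ‖z‖ * ‖w‖ := by
    rw [h1]
    refine (norm_sub_le _ _).trans ?_
    simp [norm_pow]
  have h3 : ‖(5 : ℂ)‖ = 5 := by norm_num
  have hz0 := norm_nonneg z
  have hw0 := norm_nonneg w
  have h4 : ‖z‖ ^ 2 * ‖w‖ ≤ 1 := by
    calc ‖z‖ ^ 2 * ‖w‖ ≤ 1 ^ 2 * 1 := by gcongr
      _ = 1 := by norm_num
  have h5 : ‖z‖ * ‖w‖ ≤ 1 := by
    calc ‖z‖ * ‖w‖ ≤ 1 * 1 := by gcongr
      _ = 1 := by norm_num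
  rw [h3] at h2
  nlinarith

theorem rif : IsRIF θ₀ := by
  constructor
  · refine ⟨MvPolynomial.C 5 + MvPolynomial.C 2 * MvPolynomial.X 0 * MvPolynomial.X 1
      - MvPolynomial.C 2 * MvPolynomial.X 0 ^ 2 * MvPolynomial.X 1,
      MvPolynomial.C 5 * MvPolynomial.X 0 ^ 2 * MvPolynomial.X 1
        + MvPolynomial.C 2 * MvPolynomial.X 0 - MvPolynomial.C 2, ?_⟩
    intro z w hz hw
    have hd := den_ne hz.le hw.le
    constructor
    · simpa [pev] using hd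
    · simp [θ₀, pev]
  · refine Filter.Eventually.of_forall fun t => ?_
    have hz : ‖Complex.exp (t.1 * Complex.I)‖ = 1 := Complex.norm_exp_ofReal_mul_I _
    have hw : ‖Complex.exp (t.2 * Complex.I)‖ = 1 := Complex.norm_exp_ofReal_mul_I _
    set z := Complex.exp (t.1 * Complex.I) with hzdef
    set w := Complex.exp (t.2 * Complex.I) with hwdef
    have hval : ‖θ₀ (((1 : ℝ) : ℂ) * z) (((1 : ℝ) : ℂ) * w)‖ = 1 := by
      have hz1 : z * conj z = 1 := by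
        rw [Complex.mul_conj, Complex.normSq_eq_norm_sq, hz]; norm_num
      have hw1 : w * conj w = 1 := by
        rw [Complex.mul_conj, Complex.normSq_eq_norm_sq, hw]; norm_num
      have e : 5 * z ^ 2 * w + 2 * z - 2
          = z ^ 2 * w * conj (5 + 2 * z * w - 2 * z ^ 2 * w) := by
        simp only [map_add, map_sub, map_mul, map_pow, map_ofNat]
        linear_combination (-2 * z * w * conj w + 2 * (z * conj z + 1)) * hz1
          + (-2 * z + 2 * (z * conj z) ^ 2) * hw1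
      unfold θ₀
      simp only [Complex.ofReal_one, one_mul]
      rw [norm_div, e, norm_mul, norm_mul, norm_pow, hz, hw, RCLike.norm_conj]
      have : ‖5 + 2 * z * w - 2 * z ^ 2 * w‖ ≠ 0 := by
        rw [norm_ne_zero_iff]; exact den_ne hz.le hw.le
      field_simp
    have hc : ContinuousAt (fun r : ℝ => ‖θ₀ ((r : ℂ) * z) ((r : ℂ) * w)‖) 1 := by
      unfold θ₀
      apply ContinuousAt.norm
      apply ContinuousAt.div
      · fun_prop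
      · fun_prop
      · simp only [Complex.ofReal_one, one_mul]
        exact den_ne hz.le hw.le
    have h2 : Tendsto (fun r : ℝ => ‖θ₀ ((r : ℂ) * z) ((r : ℂ) * w)‖) (𝓝 1) (𝓝 1) := by
      have := hc.tendsto
      rwa [hval] at this
    exact h2.mono_left nhdsWithin_le_nhds

theorem not_splits : ¬ Splits θ₀ := by
  rintro ⟨B₁, B₂, -, -, h⟩
  have n0 : ‖(0 : ℂ)‖ < 1 := by simp
  have n1 : ‖(1/2 : ℂ)‖ < 1 := by norm_num
  have h00 := h 0 0 n0 n0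
  have h01 := h 0 (1/2) n0 n1
  have h10 := h (1/2) 0 n1 n0
  have h11 := h (1/2) (1/2) n1 n1
  unfold θ₀ at h00 h01 h10 h11
  norm_num at h00 h01 h10 h11
  have hb : B₁ 0 ≠ 0 := by
    intro hb; rw [hb] at h00; norm_num at h00
  have h2 : B₂ 0 = B₂ (1/2) := by
    apply mul_left_cancel₀ hb
    rw [← h00]
    simpa using h01
  rw [h2] at h10
  have h3 : (-(1/14) : ℂ) = -(1/5) := by
    rw [h10]
    have := h11
    norm_num at this ⊢
    linear_combination this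
  norm_num at h3

theorem ev_P (f : H2) {z w : ℂ} (hz : ‖z‖ < 1) (hw : ‖w‖ < 1) :
    ev ((P S1 S2) f) z w = (5 + 2 * z * w - 2 * z ^ 2 * w) * ev f z w := by
  have : (P S1 S2) f = (5 : ℂ) • f + (2 : ℂ) • S1 (S2 f) - (2 : ℂ) • S1 (S1 (S2 f)) := rfl
  rw [this, ev_sub _ _ hz hw, ev_add _ _ hz hw, ev_smul, ev_smul, ev_smul, ev_S1, ev_S1, ev_S1,
    ev_S2]
  ring

theorem ev_Pt (f : H2) {z w : ℂ} (hz : ‖z‖ < 1) (hw : ‖w‖ < 1) :
    ev ((Pt S1 S2) f) z w = (5 * z ^ 2 * w + 2 * z - 2) * ev f z w := by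
  have : (Pt S1 S2) f = (5 : ℂ) • S1 (S1 (S2 f)) + (2 : ℂ) • S1 f - (2 : ℂ) • f := rfl
  rw [this, ev_sub _ _ hz hw, ev_add _ _ hz hw, ev_smul, ev_smul, ev_smul, ev_S1, ev_S1, ev_S1,
    ev_S2]
  ring

theorem ev_Th {R : H2 →L[ℂ] H2} (d : Dat S1 S2 R) (g : H2) {z w : ℂ} (hz : ‖z‖ < 1)
    (hw : ‖w‖ < 1) : ev ((Dat.Th S1 S2 R) g) z w = θ₀ z w * ev g z w := by
  have h1 : (P S1 S2) (R g) = g := by
    have := congrArg (fun T : H2 →L[ℂ] H2 => T g) d.PR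
    exact this
  have h2 : (5 + 2 * z * w - 2 * z ^ 2 * w) * ev (R g) z w = ev g z w := by
    rw [← ev_P _ hz hw, h1]
  have h3 : (Dat.Th S1 S2 R) g = (Pt S1 S2) (R g) := rfl
  have hd := den_ne hz.le hw.le
  rw [h3, ev_Pt _ hz hw, ← h2]
  unfold θ₀
  rw [div_mul_eq_mul_div, eq_div_iff hd]
  ring

theorem mem_K {R : H2 →L[ℂ] H2} (d : Dat S1 S2 R) (x : H2) :
    x ∈ (Submodule.span ℂ {h : H2 | ∃ g : H2, ∀ z w : ℂ, ‖z‖ < 1 → ‖w‖ < 1 →
    ev h z w = θ₀ z w * ev g z w})ᗮ ↔ (star (Dat.Th S1 S2 R)) x = 0 := by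
  rw [Submodule.mem_orthogonal]
  constructor
  · intro h
    have h1 := h ((Dat.Th S1 S2 R) ((star (Dat.Th S1 S2 R)) x))
      (Submodule.subset_span ⟨_, fun z w hz hw => ev_Th d _ hz hw⟩)
    have h2 : ⟪(star (Dat.Th S1 S2 R)) x, (star (Dat.Th S1 S2 R)) x⟫_ℂ = 0 := by
      rw [inner_star (star (Dat.Th S1 S2 R)), star_star, h1]
    exact inner_self_eq_zero.mp h2
  · intro h u hu
    induction hu using Submodule.span_induction with
    | mem u hu =>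
      obtain ⟨g, hg⟩ := hu
      have hu : u = (Dat.Th S1 S2 R) g := by
        rw [← sub_eq_zero]
        apply ev_inj
        intro z w hz hw
        rw [ev_sub _ _ hz hw, hg z w hz hw, ev_Th d _ hz hw, sub_self]
      have h2 : ⟪(Dat.Th S1 S2 R) g, x⟫_ℂ = ⟪g, (star (Dat.Th S1 S2 R)) x⟫_ℂ := by
        rw [inner_star (star (Dat.Th S1 S2 R)), star_star]
      rw [hu, h2, h, inner_zero_right]
    | zero => simp
    | add a b _ _ ha hb => rw [inner_add_left, ha, hb, add_zero]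
    | smul c a _ ha => rw [inner_smul_left, ha, mul_zero]

/-- the fixed space of a bounded operator -/
noncomputable def fixed (T : H2 →L[ℂ] H2) : Submodule ℂ H2 :=
  LinearMap.ker ((1 - T : H2 →L[ℂ] H2) : H2 →ₗ[ℂ] H2)

theorem fixed_closed (T : H2 →L[ℂ] H2) : IsClosed (fixed T : Set H2) :=
  (1 - T : H2 →L[ℂ] H2).isClosed_ker

theorem mem_fixed (T : H2 →L[ℂ] H2) (x : H2) : x ∈ fixed T ↔ T x = x := by
  show x ∈ LinearMap.ker ((1 - T : H2 →L[ℂ] H2) : H2 →ₗ[ℂ] H2) ↔ _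
  rw [LinearMap.mem_ker]
  show x - T x = 0 ↔ _
  rw [sub_eq_zero, eq_comm]

theorem agler {R : H2 →L[ℂ] H2} (d : Dat S1 S2 R) :
    IsAgler ((Submodule.span ℂ {h : H2 | ∃ g : H2, ∀ z w : ℂ, ‖z‖ < 1 → ‖w‖ < 1 →
    ev h z w = θ₀ z w * ev g z w})ᗮ) (fixed (Dat.Q S1 S2 R)) (fixed (Dat.G S1 S2 R)) S1 S2 := by
  refine ⟨fixed_closed _, fixed_closed _, ?_, ?_, ?_, ?_⟩
  · intro x hx y hy
    rw [mem_fixed] at hx hy
    rw [← hx, ← hy, ← inner_conj_symm, inner_star, Dat.Q_star, ← Dat.app, d.QG]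
    simp
  · apply le_antisymm
    · rw [sup_le_iff]
      constructor
      · intro x hx
        rw [mem_K d]
        exact (d.of_Q ((mem_fixed _ _).1 hx)).1
      · intro x hx
        rw [mem_K d]
        exact (d.of_G ((mem_fixed _ _).1 hx)).1
    · intro x hx
      rw [mem_K d] at hx
      have h1 : x = (Dat.Q S1 S2 R) x + (Dat.G S1 S2 R) x := by
        have h2 : (1 - Dat.Th S1 S2 R * star (Dat.Th S1 S2 R)) x = x := by
          show x - (Dat.Th S1 S2 R) ((star (Dat.Th S1 S2 R)) x) = x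
          rw [hx]; simp
        rw [← h2]
        exact (congrArg (fun T : H2 →L[ℂ] H2 => T x) d.main_id).trans (by rw [h2]; rfl)
      rw [h1]
      refine Submodule.add_mem_sup ?_ ?_
      · exact (mem_fixed _ _).2 (d.Q_apply_Q x)
      · exact (mem_fixed _ _).2 (d.G_apply_G x)
  · intro x hx
    rw [mem_fixed] at hx ⊢
    have h1 : x = (Dat.A1 S1 S2 R) ((star (Dat.A1 S1 S2 R)) x) := by
      conv_lhs => rw [← hx]
      rfl
    have h2 : S1 x = (Dat.A1 S1 S2 R) (S1 ((star (Dat.A1 S1 S2 R)) x)) := by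
      conv_lhs => rw [h1]
      rw [← Dat.app, d.ZA1]; rfl
    rw [h2, ← Dat.app, d.QA1]
  · intro x hx
    rw [mem_fixed] at hx ⊢
    have h1 : x = (5 : ℂ) • (Dat.C1 S1 S2 R) ((star (Dat.C1 S1 S2 R)) x)
        + (Dat.C2 S1 S2 R) ((star (Dat.C2 S1 S2 R)) x) := by
      conv_lhs => rw [← hx]
      rfl
    have h2 : S2 x = (5 : ℂ) • (Dat.C1 S1 S2 R) (S2 ((star (Dat.C1 S1 S2 R)) x))
        + (Dat.C2 S1 S2 R) (S2 ((star (Dat.C2 S1 S2 R)) x)) := by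
      have e1 : ∀ y : H2, S2 ((Dat.C1 S1 S2 R) y) = (Dat.C1 S1 S2 R) (S2 y) := fun y =>
        congrArg (fun T : H2 →L[ℂ] H2 => T y) d.WC1
      have e2 : ∀ y : H2, S2 ((Dat.C2 S1 S2 R) y) = (Dat.C2 S1 S2 R) (S2 y) := fun y =>
        congrArg (fun T : H2 →L[ℂ] H2 => T y) d.WC2
      conv_lhs => rw [h1]
      rw [map_add, map_smul, e1, e2]
    have e3 : ∀ y : H2, (Dat.G S1 S2 R) ((Dat.C1 S1 S2 R) y) = (Dat.C1 S1 S2 R) y := fun y =>
      congrArg (fun T : H2 →L[ℂ] H2 => T y) d.GC1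
    have e4 : ∀ y : H2, (Dat.G S1 S2 R) ((Dat.C2 S1 S2 R) y) = (Dat.C2 S1 S2 R) y := fun y =>
      congrArg (fun T : H2 →L[ℂ] H2 => T y) d.GC2
    rw [h2, map_add, map_smul, e3, e4]

theorem inner_of {M : Submodule ℂ H2} {T : H2 →L[ℂ] H2} {x y : H2} (hx : x ∈ M)
    (h : ∀ v ∈ M, ⟪v, T x - y⟫_ℂ = 0) : ⟪x, y⟫_ℂ = ⟪x, T x⟫_ℂ := by
  have := h x hx
  rw [inner_sub_right, sub_eq_zero] at this
  exact this.symm

theorem not_open {R : H2 →L[ℂ] H2} (d : Dat S1 S2 R) :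
    ¬ IsOpen (numRange (fixed (Dat.G S1 S2 R)) S1) := by
  intro ho
  -- the vacuum vector
  set e : H2 := lp.single (E := fun _ : ℕ × ℕ => ℂ) 2 ((0, 0) : ℕ × ℕ) (1 : ℂ) with he
  have he0 : e ≠ 0 := by
    intro h
    have := congrArg (fun f : H2 => f (0, 0)) h
    simp [he] at this
  have hse : (star S1) e = 0 := by
    ext ⟨k, l⟩
    rw [S1s]
    simp [he, lp.single_apply]
  have hE : (Dat.E S1) e = e := by
    show e - S1 ((star S1) e) = e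
    rw [hse]; simp
  obtain ⟨x, hG, hn, hre⟩ := d.exists_extremal hE he0
  have hx : x ∈ fixed (Dat.G S1 S2 R) := (mem_fixed _ _).2 hG
  have hy : (Dat.G S1 S2 R) (S1 x) ∈ fixed (Dat.G S1 S2 R) :=
    (mem_fixed _ _).2 (d.G_apply_G _)
  have horth : ∀ v ∈ fixed (Dat.G S1 S2 R), ⟪v, S1 x - (Dat.G S1 S2 R) (S1 x)⟫_ℂ = 0 := by
    intro v hv
    rw [mem_fixed] at hv
    rw [inner_sub_right, inner_star (Dat.G S1 S2 R), Dat.G_star, hv, sub_self]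
  have hmem : ⟪x, S1 x⟫_ℂ ∈ numRange (fixed (Dat.G S1 S2 R)) S1 :=
    ⟨x, hx, hn, _, ⟨hy, horth⟩, (inner_of hx horth).symm⟩
  obtain ⟨ε, hε, hball⟩ := Metric.isOpen_iff.mp ho _ hmem
  have hin : ⟪x, S1 x⟫_ℂ + ((ε / 2 : ℝ) : ℂ) ∈ Metric.ball (⟪x, S1 x⟫_ℂ) ε := by
    rw [Metric.mem_ball, dist_eq_norm, add_sub_cancel_left, Complex.norm_real,
      Real.norm_of_nonneg (by positivity)]
    linarith
  obtain ⟨y, hyM, hyn, y', ⟨hy'M, hy'o⟩, hyc⟩ := hball hin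
  rw [inner_of hyM hy'o] at hyc
  have h3 := d.re_le ((mem_fixed _ _).1 hyM) hyn
  rw [← hyc, Complex.add_re, hre, Complex.ofReal_re] at h3
  linarith

theorem main : ∃ (T₁ T₂ : HH →L[ℂ] HH) (M₁ M₂ : Submodule ℂ HH),
      IsMul (fun z _ => z) T₁ ∧ IsMul (fun _ w => w) T₂ ∧ IsAgler (Ktheta θ₀) M₁ M₂ T₁ T₂ ∧
      ¬ IsOpen (numRange M₂ T₁) := by
  obtain ⟨R, h1, h2⟩ := exists_R pair
  have d : Dat S1 S2 R := { pair with PR := h1, RP := h2 }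
  exact ⟨S1, S2, fixed (Dat.Q S1 S2 R), fixed (Dat.G S1 S2 R), fun f z w _ _ => ev_S1 f z w,
    fun f z w _ _ => ev_S2 f z w, agler d, not_open d⟩

/-- The rational inner function `θ₀ = (5 z₁² z₂ + 2 z₁ - 2)/(5 + 2 z₁ z₂ - 2 z₁² z₂)` does not
split, and for some Agler decomposition the numerical range `W(S¹_θ)` is not open. In
particular the statement Q1 is false. -/
theorem result :
    (IsRIF θ₀ ∧ ¬ Splits θ₀ ∧ ∃ (T₁ T₂ : HH →L[ℂ] HH) (M₁ M₂ : Submodule ℂ HH),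
      IsMul (fun z _ => z) T₁ ∧ IsMul (fun _ w => w) T₂ ∧ IsAgler (Ktheta θ₀) M₁ M₂ T₁ T₂ ∧
      ¬ IsOpen (numRange M₂ T₁)) ∧ ¬ Q1 := by
  refine ⟨⟨rif, not_splits, main⟩, fun hQ => ?_⟩
  obtain ⟨T₁, T₂, M₁, M₂, h1, h2, h3, h4⟩ := main
  exact h4 ((hQ θ₀ T₁ T₂ M₁ M₂ rif h1 h2 h3).1 not_splits).1

end Pool.Agent.Results.MP_dfd7ce_an.NotOpen
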